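import Pool.Agent.SZT.StmtsC

/-!
# SZT row PAI (pairs of points are determined by the class)
-/

set_option autoImplicit false

open Polynomial H58Q

namespace Pool.Agent.SZT.H10

theorem pai_dvd {K : Type} [Field K] {A D D' : K[X]} (hA : A.Monic) (hD : D.Monic)
    (hD' : D'.Monic) (h1 : A.natDegree ≤ 1) (h2 : D.natDegree ≤ 1) (h3 : D'.natDegree ≤ 1)
    {A' : K[X]} (h4 : A'.natDegree ≤ 1) (h : A * A' = D * D') :
    A = D ∨ A = D' := by
  rcases Nat.eq_zero_or_pos A.natDegree with h0 | h0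
  · have hA1 := eq_one_of_monic_natDegree_zero hA h0
    have hdeg : D.natDegree + D'.natDegree ≤ 1 := by
      rw [← hD.natDegree_mul hD', ← h, hA1, one_mul]; exact h4
    rcases Nat.eq_zero_or_pos D.natDegree with h5 | h5
    · left; rw [hA1, eq_one_of_monic_natDegree_zero hD h5]
    · right; rw [hA1, eq_one_of_monic_natDegree_zero hD' (by omega)]
  · have hdeg : A.degree = 1 := by
      rw [degree_eq_natDegree hA.ne_zero, show A.natDegree = 1 by omega]; rfl
    have hp : Prime A := (irreducible_of_degree_eq_one hdeg).prime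
    have hd : A ∣ D * D' := ⟨A', h.symm⟩
    rcases hp.dvd_or_dvd hd with h5 | h5
    · left; exact (eq_of_monic_of_dvd_of_natDegree_le hA hD h5 (by omega)).symm
    · right; exact (eq_of_monic_of_dvd_of_natDegree_le hA hD' h5 (by omega)).symm

theorem pai_eq {K : Type} [Field K] {f A B E B1 : K[X]} (h1 : Mum f A B) (h2 : Mum f A E)
    (h3 : A ∣ B1 - B) (h4 : A ∣ B1 - E) : B = E := by
  have h5 : A ∣ B - E := by
    have := dvd_sub h4 h3
    have e : B1 - E - (B1 - B) = B - E := by ring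
    rwa [e] at this
  have h6 : (B - E).degree < A.degree := lt_of_le_of_lt (degree_sub_le _ _) (max_lt h1.deg h2.deg)
  exact sub_eq_zero.mp (eq_zero_of_dvd_of_degree_lt h5 h6)

theorem pai_principal {R : Type} [CommRing R] [IsDomain R] (I : Ideal R) (a b c : R)
    (ha : a ≠ 0) (h : Ideal.span {a} * I = Ideal.span {b * c}) : I.IsPrincipal := by
  have h1 : b * c ∈ Ideal.span {a} * I := by
    rw [h]; exact Ideal.mem_span_singleton_self (b * c)
  obtain ⟨k, hk, e⟩ := Ideal.mem_span_singleton_mul.mp h1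
  have h2 : Ideal.span {a} * I = Ideal.span {a} * Ideal.span {k} := by
    rw [h, Ideal.span_singleton_mul_span_singleton, e]
  have h3 : I = Ideal.span {k} := (Ideal.span_singleton_mul_right_inj ha).mp h2
  exact ⟨⟨k, h3⟩⟩

theorem pai (hUnq : UnqStatement) (hPro : ProStatement) (hMii : MiiStatement) : PaiStatement := by
  intro K _ f A B A' B' D E D' E' h2 hsq hf hAB hAB' hDE hDE' hA hA' hD hD' hnp hS
  have hodd : Fact (Odd f.natDegree) := ⟨by rw [hf]; decide⟩
  have c1 : ¬ (A = A' ∧ B = -B') := by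
    rintro ⟨rfl, hB⟩
    apply hnp
    have e : B' = -B := by rw [hB, neg_neg]
    rw [e, hMii K f A B h2 hsq hAB.dvd]
    exact ⟨⟨_, rfl⟩⟩
  have c2 : ¬ (D = D' ∧ E = -E') := by
    rintro ⟨rfl, hE⟩
    apply hnp
    have e : E' = -E := by rw [hE, neg_neg]
    obtain ⟨a, b, ha, hb, hab⟩ := hS
    rw [e, hMii K f D E h2 hsq hDE.dvd, Ideal.span_singleton_mul_span_singleton] at hab
    exact pai_principal _ _ _ _ ha hab
  obtain ⟨B1, m1, d1, d2, e1⟩ := hPro K f A B A' B' h2 hAB hAB' hA hA' c1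
  obtain ⟨B2, m2, d3, d4, e2⟩ := hPro K f D E D' E' h2 hDE hDE' hD hD' c2
  rw [e1, e2] at hS
  have g1 : (A * A').natDegree ≤ 2 := by
    rw [hAB.monic.natDegree_mul hAB'.monic]; omega
  have g2 : (D * D').natDegree ≤ 2 := by
    rw [hDE.monic.natDegree_mul hDE'.monic]; omega
  obtain ⟨u1, u2⟩ := hUnq K f _ _ _ _ h2 hsq hf m1 m2 g1 g2 hS
  subst u2
  rcases pai_dvd hAB.monic hDE.monic hDE'.monic hA hD hD' hA' u1 with h | h
  · left
    subst h
    have h' : A' = D' := mul_left_cancel₀ hAB.monic.ne_zero u1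
    subst h'
    exact ⟨rfl, pai_eq hAB hDE d1 d3, rfl, pai_eq hAB' hDE' d2 d4⟩
  · right
    subst h
    have h' : A' = D := by
      rw [mul_comm D A] at u1
      exact mul_left_cancel₀ hAB.monic.ne_zero u1
    subst h'
    exact ⟨rfl, pai_eq hAB hDE' d1 d4, rfl, pai_eq hAB' hDE d2 d3⟩

end Pool.Agent.SZT.H10
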